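import Pool.Agent.ASE.Stmts5

/-!
# Squad ASE: row BRV (the alternating sums `Br` at the types `TA`)
-/

open scoped BigOperators

noncomputable section

namespace Pool.Agent.PP.SE.H33

open Pool.Agent.Helper51_AWC Pool.Agent.Helper79_WRA Pool.Agent.PP Pool.Agent.PP.KF
open Pool.Agent.PP.K9 Pool.Agent.PP.K9.H97 Pool.Agent.PP.H75 Pool.Agent.PP.T3 Pool.Agent.PP.SO
open Pool.Agent.PP.SD Pool.Agent.PP.SE

theorem hm_one {V₀ : Type} [CommGroup V₀] {ℓ : ℕ} {ρ : V₀ → ZMod ℓ} (h : Hm ρ) : ρ 1 = 0 := by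
  have h1 := h 1 1
  rw [mul_one] at h1
  have h2 : ρ 1 + 0 = ρ 1 + ρ 1 := by
    rw [add_zero]
    exact h1
  exact (add_left_cancel h2).symm

/-- BRV -/
theorem brv (hTya : TyaStmt) (hFva : FvaStmt) : BrvStmt := by
  intro ℓ hℓ V₀ _ _ E₀ hq n ρ₁ ρ₂ hn hρ₁ hρ₂ x₁ x₂ hx₁ hx₂ F₁₃ Ψ M₁ M₂ K hFE kc kd σ τ a κ y
    ha hσ hτ hκ
  obtain ⟨hf1, hf2, hf3, hf4, hf5, hf6⟩ := hFva ℓ V₀ hq.ex n ρ₁ ρ₂ hn hρ₁ hρ₂ x₁ x₂ hx₁ hx₂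
    F₁₃ Ψ M₁ M₂ K hFE kc kd
  obtain ⟨ht1, ht2, ht3⟩ := hTya ℓ V₀ E₀ hq n σ τ a κ y ha hσ hτ
  have hn0 : 0 < n := by
    obtain ⟨r, -, rfl⟩ := hn
    exact pow_pos hℓ.out.pos r
  obtain ⟨F, hF⟩ : ∃ F : Set (SO.SS n V₀) → ℚ, F = F12 ℓ x₁ x₂ Ψ M₁ M₂ K kc kd := ⟨_, rfl⟩
  rw [← hF] at hf1 hf2 hf3 hf4 ⊢
  -- types with all `p = q = 1`
  have hone : ∀ S : Set (SO.SS n V₀), (∀ s ∈ S, s.2.2.1 = 1 ∧ s.2.2.2 = 1) →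
      F S = (x₁ kc⁻¹ * x₂ kd⁻¹ : ℤ) / (ℓ : ℚ) ^ 2 := by
    intro S hS
    apply hf2
    · intro s hs _ _
      exact hS s hs
    · intro s hs
      rw [(hS s hs).1, (hS s hs).2]
      exact ⟨hm_one hρ₁, hm_one hρ₂⟩
  obtain ⟨T, hT⟩ : ∃ T : Set (SO.SS n V₀), T = TA σ a κ τ y := ⟨_, rfl⟩
  rw [← hT] at ht1 ht2 ht3 ⊢
  have hTσ : ∀ s ∈ T, σ s.2.2.2 = s.2.2.1 := by
    intro s hs
    rw [hT] at hs
    exact hs.2.1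
  have hTq : ∀ s ∈ T, s.2.2.2 = σ⁻¹ s.2.2.1 := by
    intro s hs
    rw [← hTσ s hs, MulAut.inv_apply_self]
  have hP1 : F (P1 T) = (x₁ kc⁻¹ * x₂ kd⁻¹ : ℤ) / (ℓ : ℚ) ^ 2 := by
    apply hone
    intro s hs
    refine ⟨hs.2, ?_⟩
    rw [hTq s hs.1, hs.2, map_one]
  have hPA : F (P1 (A1 κ T)) = (x₁ kc⁻¹ * x₂ kd⁻¹ : ℤ) / (ℓ : ℚ) ^ 2 := by
    apply hone
    intro s hs
    refine ⟨hs.2, ?_⟩
    rw [hTq s hs.1.1, hs.2, map_one]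
  have hinv : (σ⁻¹ κ)⁻¹ = σ⁻¹ κ⁻¹ := (map_inv _ _).symm
  -- the part `A1`
  have hA : ∀ I : Set (Fin n), (∃ i ∈ I, (i : ℕ) = 0) →
      (∀ s : SO.SS n V₀, s.2.2.1 = κ⁻¹ ^ (s.2.1 : ℕ) → s.2.2.2 = σ⁻¹ s.2.2.1 →
        (s ∈ T ↔ s.1 ∈ I)) →
      F (A1 κ T) = (x₁ kc⁻¹ * x₂ kd⁻¹ - x₁ κ⁻¹ * x₂ (σ⁻¹ κ)⁻¹ : ℤ) / (ℓ : ℚ) ^ 2 := by
    intro I hI hI2
    rw [← hf3 κ⁻¹ (σ⁻¹ κ)⁻¹ I hI]
    congr 1
    ext s
    simp only [A1, Set.mem_ofPred_eq]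
    constructor
    · rintro ⟨hs, hs2⟩
      have h1 : s.2.2.1 = κ⁻¹ ^ (s.2.1 : ℕ) := by
        rw [inv_pow]
        exact eq_inv_of_mul_eq_one_right hs2
      have h2 := hTq s hs
      refine ⟨(hI2 s h1 h2).1 hs, h1, ?_⟩
      rw [h2, h1, hinv, map_pow]
    · rintro ⟨hs, h1, h2⟩
      have h3 : s.2.2.2 = σ⁻¹ s.2.2.1 := by
        rw [h2, h1, hinv, map_pow]
      refine ⟨(hI2 s h1 h3).2 hs, ?_⟩
      rw [h1, inv_pow, mul_inv_cancel]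
  refine ⟨?_, ?_, ?_⟩
  · -- `τ ∈ St E₀ a`
    intro hst
    have hT1 := (ht1 hst).1 hκ
    have hFT : F T = 0 := by
      apply hf1
      intro hfre
      have hne : ∃ p ∈ a, p ≠ 1 := by
        by_contra hno
        push Not at hno
        have hbot : a = ⊥ := by
          rw [Subgroup.eq_bot_iff_forall]
          exact hno
        rw [hbot, Subgroup.card_bot] at ha
        exact hℓ.out.one_lt.ne ha
      obtain ⟨p, hp, hp1⟩ := hne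
      have hs : ((⟨0, hn0⟩, ⟨0, hn0⟩, p, σ⁻¹ p) : SO.SS n V₀) ∈ T := by
        rw [hT1]
        exact ⟨hp, rfl, pow_zero y⟩
      exact hp1 (hfre _ hs rfl rfl).1
    have hFA := hA {i | y ^ (i : ℕ) = 1} ⟨⟨0, hn0⟩, pow_zero y, rfl⟩ (by
      intro s h1 h2
      rw [hT1]
      constructor
      · intro hs
        exact hs.2.2
      · intro hs
        refine ⟨?_, h2, hs⟩
        rw [h1]
        exact a.pow_mem (a.inv_mem hκ) _)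
    unfold Br
    rw [hFT, hP1, hPA, hFA]
    ring
  · -- `y = τ⁻¹ ζ ζ⁻¹`
    intro hst ζ hζ hζ1 hy
    have hT2 := (ht2 hst ζ hζ hζ1 hy).1 hκ
    have hFT : F T = (x₁ kc⁻¹ * x₂ kd⁻¹ - x₁ κ⁻¹ * x₂ (σ⁻¹ κ)⁻¹ - 12 * ((x₁ kc⁻¹ - x₁ κ⁻¹) *
        x₂ (σ⁻¹ ζ) + (x₂ kd⁻¹ - x₂ (σ⁻¹ κ)⁻¹) * x₁ ζ) : ℤ) / (ℓ : ℚ) ^ 2 := by
      rw [hT2]
      exact hf4 ζ (σ⁻¹ ζ) κ⁻¹ (σ⁻¹ κ)⁻¹
    have hFA := hA {i | ζ ^ (i : ℕ) = 1} ⟨⟨0, hn0⟩, pow_zero ζ, rfl⟩ (by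
      intro s h1 h2
      rw [hT2]
      constructor
      · intro hs
        have h3 : s.2.2.1 = ζ ^ (s.1 : ℕ) * κ⁻¹ ^ (s.2.1 : ℕ) := hs.1
        rw [h1] at h3
        change ζ ^ (s.1 : ℕ) = 1
        exact (mul_eq_right.1 h3.symm)
      · intro hs
        have h4 : ζ ^ (s.1 : ℕ) = 1 := hs
        refine ⟨?_, ?_⟩
        · rw [h4, one_mul]
          exact h1
        · have h5 : (σ⁻¹ ζ) ^ (s.1 : ℕ) = 1 := by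
            rw [← map_pow, h4, map_one]
          rw [h5, one_mul, h2, h1, hinv, map_pow])
    unfold Br BrF
    rw [hFT, hP1, hPA, hFA]
    push_cast
    ring
  · -- all `α = 1`
    intro hst hy
    have hT3 := (ht3 hst hy).1 hκ
    have hAT : A1 κ T = T := by
      ext s
      constructor
      · intro hs
        exact hs.1
      · intro hs
        exact ⟨hs, hT3 s hs⟩
    unfold Br
    rw [hAT]
    ring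

end Pool.Agent.PP.SE.H33
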