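import Pool.Agent.ASE.Stmts7

/-!
# Squad ASE: row GDP (operators commuting with `θ` and a projection)
-/

open scoped BigOperators

noncomputable section

namespace Pool.Agent.PP.SE.H33

open Pool.Agent.Helper51_AWC Pool.Agent.Helper79_WRA Pool.Agent.PP Pool.Agent.PP.KF
open Pool.Agent.PP.K9 Pool.Agent.PP.K9.H97 Pool.Agent.PP.H75 Pool.Agent.PP.T3 Pool.Agent.PP.SO
open Pool.Agent.PP.SD Pool.Agent.PP.SE

/-- a multiplicative function with a non trivial value has the sum `0` -/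
theorem sum_zero {ℓ : ℕ} [Fact ℓ.Prime] {Γ : Type} [Group Γ] [Fintype Γ] (χ : Γ → ZMod ℓ)
    (hm : ∀ e e', χ (e * e') = χ e * χ e') (e₀ : Γ) (h0 : χ e₀ ≠ 1) : ∑ e, χ e = 0 := by
  have h1 : ∑ e, χ e = χ e₀ * ∑ e, χ e := by
    rw [Finset.mul_sum]
    calc ∑ e, χ e = ∑ e, χ (e₀ * e) := (Equiv.sum_comp (Equiv.mulLeft e₀) χ).symm
      _ = ∑ e, χ e₀ * χ e := Finset.sum_congr rfl fun e _ => hm e₀ e
  have h2 : (1 - χ e₀) * ∑ e, χ e = 0 := by
    rw [sub_mul, one_mul, ← h1, sub_self]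
  rcases mul_eq_zero.1 h2 with h3 | h3
  · exact absurd (sub_eq_zero.1 h3).symm h0
  · exact h3

/-- GDP -/
theorem gdp (hLcm : SO.LCmStmt) : GdpStmt := by
  intro ℓ hℓ V Γ I _ _ _ _ _ _ ρ P Z hl2 hrk hLP a₀ θ hθ hcom
  have : Nontrivial V := Module.nontrivial_of_finrank_pos (R := ZMod ℓ) (by rw [hrk]; norm_num)
  have htr1 : LinearMap.trace (ZMod ℓ) V 1 = 2 := by
    rw [LinearMap.trace_one, hrk]
    norm_num
  -- `P a₀` is not a scalar
  have hP0 : ∀ a : ZMod ℓ, P a₀ ≠ a • 1 := by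
    intro x hx
    have h1 := hLP.pp a₀
    have h2 := hLP.tr a₀
    rw [hx, map_smul, htr1, smul_eq_mul] at h2
    obtain ⟨v, hv⟩ := exists_ne (0 : V)
    have h3 : (x * x) • v = x • v := by
      have h4 := congrArg (fun f : Module.End (ZMod ℓ) V => f v) h1
      simp only [hx] at h4
      change x • x • v = x • v at h4
      rw [← mul_smul] at h4
      exact h4
    have h5 : x * x = x := smul_left_injective (ZMod ℓ) hv h3
    have h6 : x * (x - 1) = 0 := by rw [mul_sub, mul_one, h5, sub_self]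
    rcases mul_eq_zero.1 h6 with h7 | h7
    · rw [h7, zero_mul] at h2
      exact zero_ne_one h2
    · rw [sub_eq_zero.1 h7, one_mul] at h2
      have h8 : (1 : ZMod ℓ) = 0 := by linear_combination h2
      exact one_ne_zero h8
  obtain ⟨-, hLc, -⟩ := hLcm ℓ V hrk (P a₀) hP0
  have hcomP : ∀ a, θ * P a = P a * θ := hLP.cm θ hcom
  -- every operator which commutes with `θ` is a combination of `1` and `P a₀`
  have hdec : ∀ g : Module.End (ZMod ℓ) V, θ * g = g * θ →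
      ∃ a b : ZMod ℓ, g = a • 1 + b • P a₀ := fun g hg => hLc θ g hθ (hcomP a₀) hg
  have hpp : ∀ v, P a₀ (P a₀ v) = P a₀ v := fun v =>
    congrArg (fun f : Module.End (ZMod ℓ) V => f v) (hLP.pp a₀)
  -- the vectors
  obtain ⟨v₁, hv₁, hPv₁⟩ : ∃ v₁ : V, v₁ ≠ 0 ∧ P a₀ v₁ = v₁ := by
    have h1 : P a₀ ≠ 0 := fun h => hP0 0 (by rw [h, zero_smul])
    obtain ⟨v, hv⟩ : ∃ v, P a₀ v ≠ 0 := by
      by_contra hno
      push Not at hno
      exact h1 (LinearMap.ext fun v => hno v)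
    exact ⟨P a₀ v, hv, hpp v⟩
  obtain ⟨v₂, hv₂, hPv₂⟩ : ∃ v₂ : V, v₂ ≠ 0 ∧ P a₀ v₂ = 0 := by
    have h1 : P a₀ ≠ 1 := fun h => hP0 1 (by rw [h, one_smul])
    obtain ⟨v, hv⟩ : ∃ v, P a₀ v ≠ v := by
      by_contra hno
      push Not at hno
      exact h1 (LinearMap.ext fun v => hno v)
    refine ⟨v - P a₀ v, fun h => hv (sub_eq_zero.1 h).symm, ?_⟩
    rw [map_sub, hpp v, sub_self]
  have hval1 : ∀ (g : Module.End (ZMod ℓ) V) (x y : ZMod ℓ), g = x • 1 + y • P a₀ →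
      g v₁ = (x + y) • v₁ := by
    intro g x y h
    rw [h, add_smul]
    change x • v₁ + y • P a₀ v₁ = x • v₁ + y • v₁
    rw [hPv₁]
  have hval2 : ∀ (g : Module.End (ZMod ℓ) V) (x y : ZMod ℓ), g = x • 1 + y • P a₀ →
      g v₂ = x • v₂ := by
    intro g x y h
    rw [h]
    change x • v₂ + y • P a₀ v₂ = x • v₂
    rw [hPv₂, smul_zero, add_zero]
  choose x y hxy using fun e : Γ => hdec (ρ e) (hcom e)
  obtain ⟨α, hα⟩ : ∃ α : Γ → ZMod ℓ, ∀ e, α e = x e + y e := ⟨fun e => x e + y e, fun _ => rfl⟩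
  have hα1 : ∀ e, ρ e v₁ = α e • v₁ := fun e => by rw [hα e]; exact hval1 _ _ _ (hxy e)
  have hβ1 : ∀ e, ρ e v₂ = x e • v₂ := fun e => hval2 _ _ _ (hxy e)
  have hmulα : ∀ e e', α (e * e') = α e * α e' := by
    intro e e'
    apply smul_left_injective (ZMod ℓ) hv₁
    change α (e * e') • v₁ = (α e * α e') • v₁
    rw [← hα1, map_mul]
    change ρ e (ρ e' v₁) = _
    rw [hα1 e', map_smul, hα1 e, ← mul_smul, mul_comm]
  have hmulβ : ∀ e e', x (e * e') = x e * x e' := by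
    intro e e'
    apply smul_left_injective (ZMod ℓ) hv₂
    change x (e * e') • v₂ = (x e * x e') • v₂
    rw [← hβ1, map_mul]
    change ρ e (ρ e' v₂) = _
    rw [hβ1 e', map_smul, hβ1 e, ← mul_smul, mul_comm]
  have honeα : α 1 = 1 := by
    apply smul_left_injective (ZMod ℓ) hv₁
    change α 1 • v₁ = (1 : ZMod ℓ) • v₁
    rw [← hα1, map_one, one_smul]
    rfl
  have honeβ : x 1 = 1 := by
    apply smul_left_injective (ZMod ℓ) hv₂
    change x 1 • v₂ = (1 : ZMod ℓ) • v₂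
    rw [← hβ1, map_one, one_smul]
    rfl
  have hinvα : ∀ e, α e * α e⁻¹ = 1 := fun e => by rw [← hmulα, mul_inv_cancel, honeα]
  have hinvβ : ∀ e, x e * x e⁻¹ = 1 := fun e => by rw [← hmulβ, mul_inv_cancel, honeβ]
  have hα0 : ∀ e, α e ≠ 0 := fun e h => by
    have := hinvα e
    rw [h, zero_mul] at this
    exact zero_ne_one this
  have hβ0 : ∀ e, x e ≠ 0 := fun e h => by
    have := hinvβ e
    rw [h, zero_mul] at this
    exact zero_ne_one this
  have hα2 : ∀ e, α e⁻¹ = (α e)⁻¹ := fun e => eq_inv_of_mul_eq_one_right (hinvα e)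
  have hβ2 : ∀ e, x e⁻¹ = (x e)⁻¹ := fun e => eq_inv_of_mul_eq_one_right (hinvβ e)
  -- the reflection
  obtain ⟨e₀, he₀, he₁⟩ := hLP.rf a₀
  have hαe : α e₀ = 1 := by
    apply smul_left_injective (ZMod ℓ) hv₁
    change α e₀ • v₁ = (1 : ZMod ℓ) • v₁
    have h1 := congrArg (fun f : Module.End (ZMod ℓ) V => f v₁) he₀
    change ρ e₀ (P a₀ v₁) = P a₀ v₁ at h1
    rw [hPv₁] at h1
    rw [← hα1, h1, one_smul]
  have hβe : x e₀ ≠ 1 := by
    intro h
    apply he₁
    have h1 := hα e₀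
    rw [hαe, h] at h1
    have h2 : y e₀ = 0 := by linear_combination -h1
    rw [hxy e₀, h, h2, zero_smul, add_zero, one_smul]
  refine ⟨α, x, v₁, v₂, hv₁, hv₂, hPv₁, hPv₂, ?_, ?_, ?_, ?_⟩
  · intro e
    exact ⟨hα1 e, hβ1 e, hα0 e, hβ0 e, hα2 e, hβ2 e⟩
  · apply sum_zero (fun e => x e * (α e)⁻¹) _ e₀
    · rw [hαe, inv_one, mul_one]
      exact hβe
    · intro e e'
      rw [hmulα, hmulβ, mul_inv]
      ring
  · apply sum_zero (fun e => α e * (x e)⁻¹) _ e₀
    · rw [hαe, one_mul]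
      intro h
      exact hβe (inv_eq_one.1 h)
    · intro e e'
      rw [hmulα, hmulβ, mul_inv]
      ring
  · intro b
    obtain ⟨s, t, hst⟩ := hdec (P b) (hcomP b)
    have h1 := hval1 _ _ _ hst
    have h2 := hval2 _ _ _ hst
    have htr := hLP.tr b
    rw [hst, map_add, map_smul, map_smul, htr1, hLP.tr a₀, smul_eq_mul, smul_eq_mul, mul_one] at htr
    have h3 : s * s = s := by
      apply smul_left_injective (ZMod ℓ) hv₂
      change (s * s) • v₂ = s • v₂
      have h4 := congrArg (fun f : Module.End (ZMod ℓ) V => f v₂) (hLP.pp b)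
      change P b (P b v₂) = P b v₂ at h4
      rw [h2, map_smul, h2, ← mul_smul] at h4
      exact h4
    have h5 : s * (s - 1) = 0 := by rw [mul_sub, mul_one, h3, sub_self]
    rcases mul_eq_zero.1 h5 with h6 | h6
    · left
      have h7 : s + t = 1 := by linear_combination htr - h6
      rw [h1, h2, h7, h6]
      exact ⟨one_smul _ _, zero_smul _ _⟩
    · right
      have h7 : s + t = 0 := by linear_combination htr - h6
      rw [h1, h2, h7, sub_eq_zero.1 h6]
      exact ⟨zero_smul _ _, one_smul _ _⟩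

end Pool.Agent.PP.SE.H33
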