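import Pool.Agent.ASE.Stmts2b

/-!
# Squad ASE: row SNU (sums over the nonexceptional characters)
-/

open scoped BigOperators

noncomputable section

namespace Pool.Agent.PP.SE.H33

open Pool.Agent.Helper51_AWC Pool.Agent.Helper79_WRA Pool.Agent.PP Pool.Agent.PP.KF
open Pool.Agent.PP.K9 Pool.Agent.PP.K9.H97 Pool.Agent.PP.H75 Pool.Agent.PP.T3 Pool.Agent.PP.SO
open Pool.Agent.PP.SD Pool.Agent.PP.SE

attribute [local instance] Ideal.Quotient.field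

section blk

variable {V₀ G : Type} [CommGroup V₀] [Group G] [Finite G] {M : Ideal (integralClosure ℤ ℂ)}
  [M.IsMaximal]

theorem ch_finite (B : Bk (FF M) V₀ G) (W : Subgroup V₀) : (Ch B W).Finite := by
  classical
  have := Fintype.ofFinite (B.C W)
  have h1 : (IrrE M (fun t : B.C W => B.b W t)).Finite := irr_finite'.subset fun χ h => h.1
  refine Set.Finite.of_injOn (f := fun (χ : G → ℂ) (t : B.C W) => χ t) (t := IrrE M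
    (fun t : B.C W => B.b W t)) (fun χ hχ => hχ.2) ?_ h1
  intro χ hχ ψ hψ h
  funext g
  by_cases hg : g ∈ B.C W
  · exact congrFun h ⟨g, hg⟩
  · rw [hχ.1 g hg, hψ.1 g hg]

end blk

/-- SNU -/
theorem snu (hGec : GecStmt) (hVxm : VxmStmt) : SnuStmt := by
  classical
  intro ℓ hℓ M hM hℓM hl2 V₀ G _ _ _ _ E₀ hq B hSd W hW N e O hCy
  obtain ⟨hg1, hg2, hg3, hg4, hg5, hg6, hg7, hg8, hg9, hg10, hg11, hg12, hg13, hg14⟩ :=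
    hGec ℓ V₀ E₀ hq W hW
  have hfin : (Ch B W).Finite := ch_finite B W
  have hIsub : ∀ ν : V₀ → ℂ, Iv B W ν ⊆ Ch B W := fun ν χ hχ => hχ.1
  have hIfin : ∀ ν : V₀ → ℂ, (Iv B W ν).Finite := fun ν => hfin.subset (hIsub ν)
  have hINfin : ∀ ν : V₀ → ℂ, {χ | χ ∈ Iv B W ν ∧ χ ∈ N}.Finite := fun ν =>
    (hIfin ν).subset fun χ hχ => hχ.1
  -- the existence of `ν`
  have hex : ∀ χ ∈ Ch B W, ∃ ν ∈ lk (kW E₀ W), χ ∈ Iv B W ν := fun χ hχ =>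
    (hVxm ℓ M hℓM hl2 V₀ G E₀ hq B hSd W hW χ hχ).2.1.2.2.2.1
  -- the inverse of a linear character
  have hne : ∀ ν ∈ lk (kW E₀ W), ∀ v, ν v ≠ 0 := by
    intro ν hν v h0
    have h1 : ν (v * v⁻¹) = ν v * ν v⁻¹ := hν.1.2 v v⁻¹
    rw [mul_inv_cancel, hν.1.1, h0, zero_mul] at h1
    exact one_ne_zero h1
  -- uniqueness of `ν`
  have huniq : ∀ ν ∈ lk (kW E₀ W), ∀ ν' ∈ lk (kW E₀ W), ∀ χ, χ ∈ Iv B W ν → χ ∈ Iv B W ν' →
      ν = ν' := by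
    intro ν hν ν' hν' χ h1 h2
    have hagree : ∀ w ∈ W, ν w = ν' w := fun w hw => by rw [← h1.2 w hw, ← h2.2 w hw]
    obtain ⟨μ, hμ⟩ : ∃ μ : V₀ → ℂ, ∀ v, μ v = ν v * (ν' v)⁻¹ := ⟨fun v => ν v * (ν' v)⁻¹, fun _ => rfl⟩
    have hμlk : μ ∈ lk (kW E₀ W) := by
      refine ⟨⟨?_, ?_⟩, ?_⟩
      · rw [hμ, hν.1.1, hν'.1.1, inv_one, mul_one]
      · intro v w
        rw [hμ, hμ, hμ, hν.1.2 v w, hν'.1.2 v w, mul_inv]
        ring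
      · intro y hy
        rw [hμ, hν.2 y hy, hν'.2 y hy, inv_one, mul_one]
    have hμ1 : μ = fun _ => 1 := by
      by_contra hno
      have h3 := hg14 μ hμlk hno
      have h4 : ∑ᶠ w ∈ (W : Set V₀), μ w = ∑ᶠ w ∈ (W : Set V₀), (1 : ℂ) := by
        apply finsum_mem_congr rfl
        intro w hw
        rw [hμ, hagree w hw, mul_inv_cancel₀ (hne ν' hν' w)]
      rw [h4, finsum_mem_eq_finite_toFinset_sum _ (Set.toFinite (W : Set V₀)), Finset.sum_const,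
        nsmul_eq_mul, mul_one, Nat.cast_eq_zero, Finset.card_eq_zero] at h3
      have h5 : (1 : V₀) ∈ (Set.toFinite (W : Set V₀)).toFinset := by
        rw [Set.Finite.mem_toFinset]
        exact W.one_mem
      rw [h3] at h5
      exact absurd h5 (Finset.notMem_empty _)
    funext v
    have h6 := hμ v
    rw [hμ1] at h6
    have h7 : (1 : ℂ) = ν v * (ν' v)⁻¹ := h6
    rw [eq_mul_inv_iff_mul_eq₀ (hne ν' hν' v), one_mul] at h7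
    exact h7.symm
  -- the partition
  have hdis : (lk (kW E₀ W)).PairwiseDisjoint fun ν => Iv B W ν := by
    intro ν hν ν' hν' hνν
    rw [Function.onFun, Set.disjoint_left]
    intro χ h1 h2
    exact hνν (huniq ν hν ν' hν' χ h1 h2)
  have hdisN : (lk (kW E₀ W)).PairwiseDisjoint fun ν => {χ | χ ∈ Iv B W ν ∧ χ ∈ N} := by
    intro ν hν ν' hν' hνν
    rw [Function.onFun, Set.disjoint_left]
    intro χ h1 h2
    exact hνν (huniq ν hν ν' hν' χ h1.1 h2.1)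
  have hU : Ch B W = ⋃ ν ∈ lk (kW E₀ W), Iv B W ν := by
    ext χ
    simp only [Set.mem_iUnion, exists_prop]
    constructor
    · exact fun hχ => hex χ hχ
    · rintro ⟨ν, -, hχ⟩
      exact hχ.1
  have hUN : {χ | χ ∈ Ch B W ∧ χ ∈ N} =
      ⋃ ν ∈ lk (kW E₀ W), {χ | χ ∈ Iv B W ν ∧ χ ∈ N} := by
    ext χ
    simp only [Set.mem_iUnion, exists_prop]
    constructor
    · rintro ⟨hχ, hN⟩
      obtain ⟨ν, hν, hχν⟩ := hex χ hχ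
      exact ⟨ν, hν, hχν, hN⟩
    · rintro ⟨ν, -, hχ, hN⟩
      exact ⟨hχ.1, hN⟩
  have hsum : ∀ f : (G → ℂ) → ℂ, ∑ᶠ χ ∈ Ch B W, f χ =
      ∑ᶠ ν ∈ lk (kW E₀ W), ∑ᶠ χ ∈ Iv B W ν, f χ := by
    intro f
    rw [hU]
    exact finsum_mem_biUnion hdis hg4 fun ν _ => hIfin ν
  have hsumN : ∀ f : (G → ℂ) → ℂ, ∑ᶠ χ ∈ {χ | χ ∈ Ch B W ∧ χ ∈ N}, f χ =
      ∑ᶠ ν ∈ lk (kW E₀ W), ∑ᶠ χ ∈ {χ | χ ∈ Iv B W ν ∧ χ ∈ N}, f χ := by
    intro f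
    rw [hUN]
    exact finsum_mem_biUnion hdisN hg4 fun ν _ => hINfin ν
  have hone : (fun _ : V₀ => (1 : ℂ)) ∈ lk (kW E₀ W) :=
    ⟨⟨rfl, fun _ _ => (mul_one _).symm⟩, fun _ _ => rfl⟩
  have hsym : ∀ χ ψ : G → ℂ, rq ℓ B W χ ψ → rq ℓ B W ψ χ := fun χ ψ h g hg hr =>
    (h g hg hr).symm
  have htrans : ∀ χ ψ φ : G → ℂ, rq ℓ B W χ ψ → rq ℓ B W ψ φ → rq ℓ B W χ φ :=
    fun χ ψ φ h h' g hg hr => (h g hg hr).trans (h' g hg hr)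
  have hinv : ∀ f : (G → ℂ) → ℂ,
      (∀ χ ∈ Ch B W, ∀ ψ ∈ Ch B W, χ ∈ N → ψ ∈ N → rq ℓ B W χ ψ → f χ = f ψ) →
      ∀ ν ∈ lk (kW E₀ W), ∑ᶠ χ ∈ {χ | χ ∈ Iv B W ν ∧ χ ∈ N}, f χ =
        ∑ᶠ χ ∈ {χ | χ ∈ Iv B W (fun _ => 1) ∧ χ ∈ N}, f χ := by
    intro f hf ν hν
    have hmt : ∀ χ, ∃ ψ, χ ∈ Ch B W → χ ∈ N →
        (ψ ∈ Iv B W (fun _ => 1) ∧ ψ ∈ N ∧ rq ℓ B W ψ χ) := by
      intro χ
      by_cases h : χ ∈ Ch B W ∧ χ ∈ N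
      · obtain ⟨ψ, hψ, -⟩ := hCy.mt _ hone χ h.1 h.2
        exact ⟨ψ, fun _ _ => hψ⟩
      · exact ⟨χ, fun h1 h2 => absurd ⟨h1, h2⟩ h⟩
    choose E hE using hmt
    refine finsum_mem_eq_of_bijOn E ⟨?_, ?_, ?_⟩ ?_
    · intro χ hχ
      have h1 := hE χ hχ.1.1 hχ.2
      exact ⟨h1.1, h1.2.1⟩
    · intro χ hχ χ' hχ' heq
      have h1 := hE χ hχ.1.1 hχ.2
      have h2 := hE χ' hχ'.1.1 hχ'.2
      have h3 := hCy.mt ν hν (E χ) h1.1.1 h1.2.1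
      refine h3.unique ⟨hχ.1, hχ.2, hsym _ _ h1.2.2⟩ ⟨hχ'.1, hχ'.2, ?_⟩
      rw [heq]
      exact hsym _ _ h2.2.2
    · intro ψ hψ
      obtain ⟨χ, hχ, -⟩ := hCy.mt ν hν ψ hψ.1.1 hψ.2
      refine ⟨χ, ⟨hχ.1, hχ.2.1⟩, ?_⟩
      have h1 := hE χ hχ.1.1 hχ.2.1
      exact (hCy.mt _ hone χ hχ.1.1 hχ.2.1).unique h1 ⟨hψ.1, hψ.2, hsym _ _ hχ.2.2⟩
    · intro χ hχ
      have h1 := hE χ hχ.1.1 hχ.2
      exact (hf _ h1.1.1 _ hχ.1.1 h1.2.1 hχ.2 h1.2.2).symm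
  refine ⟨hfin, hsum, hsumN, ?_, ?_⟩
  · intro f hf
    refine ⟨hinv f hf, ?_⟩
    intro z hz
    have h1 : ∑ᶠ χ ∈ {χ | χ ∈ Ch B W ∧ χ ∈ N}, nu B χ z * f χ =
        ∑ᶠ ν ∈ lk (kW E₀ W), ν z *
          ∑ᶠ χ ∈ {χ | χ ∈ Iv B W (fun _ => 1) ∧ χ ∈ N}, f χ := by
      rw [hsumN]
      apply finsum_mem_congr rfl
      intro ν hν
      rw [← hinv f hf ν hν, mul_finsum_mem]
      apply finsum_mem_congr rfl
      intro χ hχ
      rw [hχ.1.2 z hz]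
    rw [h1, ← finsum_mem_mul]
    by_cases hz1 : z = 1
    · rw [if_pos hz1]
      congr 1
      have h2 : ∑ᶠ ν ∈ lk (kW E₀ W), ν z = ∑ᶠ ν ∈ lk (kW E₀ W), (1 : ℂ) := by
        apply finsum_mem_congr rfl
        intro ν hν
        rw [hz1]
        exact hν.1.1
      rw [h2, finsum_mem_eq_finite_toFinset_sum _ hg4, Finset.sum_const, nsmul_eq_mul, mul_one,
        ← Set.ncard_eq_toFinset_card _ hg4, hg2]
    · rw [if_neg hz1, hg13 z hz hz1, zero_mul]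
  · intro ν hν
    refine ⟨(hCy.lv ν hν).cN, hINfin ν, ?_⟩
    intro ψ hψ hψN
    obtain ⟨χ₀, hχ₀, hu⟩ := hCy.mt ν hν ψ hψ hψN
    rw [finsum_mem_eq_finite_toFinset_sum _ (hINfin ν), Finset.sum_eq_single χ₀]
    · rw [if_pos hχ₀.2.2]
    · intro χ hχ hne'
      rw [Set.Finite.mem_toFinset] at hχ
      rw [if_neg]
      intro hr
      exact hne' (hu χ ⟨hχ.1, hχ.2, hr⟩)
    · intro hno
      exfalso
      apply hno
      rw [Set.Finite.mem_toFinset]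
      exact ⟨hχ₀.1, hχ₀.2.1⟩

end Pool.Agent.PP.SE.H33
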